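import Pool.Agent.H21.BT.Targets

/-!
# Row OT3 of bt_modules (second copy): the inner product with a sum of exponentials
-/

set_option autoImplicit false

open Finset Pool.Agent.H6.N4D Pool.Agent.H21.BS

namespace Pool.Agent.H21.BT

theorem pf_OT3 (hLVT : T_LVT) (hOMF : T_OMF) (hOM3 : T_OM3) : T_OT3 := by
  intro W _
  obtain ⟨C, hC, h⟩ := hOM3 W
  refine ⟨C, hC, ?_⟩
  intro S A z R F hS hz hF i hi hiK
  obtain ⟨f1, _, f3⟩ := hOMF S W A z hS hz
  obtain ⟨l1, _, _⟩ := hLVT S W A hS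
  obtain ⟨g1, _, _, g4, g5, _⟩ := l1 i hiK
  have hcnt : 0 < S.cnt i := by
    rcases Nat.eq_zero_or_pos (S.cnt i) with h0 | h0
    · rw [h0, zero_mul] at g4
      omega
    · exact h0
  have hA : 1 ≤ A := (hS.ok i hi hiK 0 hcnt).A1
  set δ : ℝ := (S.s 0 : ℝ) ^ (-(1 / 5) : ℝ) with hδ
  have hδ0 : 0 ≤ δ := Real.rpow_nonneg (Nat.cast_nonneg _) _
  obtain ⟨O, hO⟩ : ∃ O : ℕ → ℕ → ℂ, ∀ r n, O r n =
      (S.fam fun _ => r).Om (S.fc A z fun _ => r) i n := ⟨_, fun _ _ => rfl⟩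
  have h1 : ∀ r < S.k, ‖av S.U S.L fun n => F n * starRingEnd ℂ (O r n)‖ ≤ C * R * δ := by
    intro r hr
    have h2 := h (S.fam fun _ => r) (S.fc A z fun _ => r) R F (hS.fm _ fun _ => hr)
      (f1 _ fun _ => hr) hF i hi hiK
    have h3 : (fun n => F n * starRingEnd ℂ ((S.fam fun _ => r).Om (S.fc A z fun _ => r) i n)) =
        fun n => F n * starRingEnd ℂ (O r n) := by
      funext n
      rw [hO]
    rw [h3] at h2
    exact h2
  have h4 : (av S.U S.L fun n => F n * starRingEnd ℂ (S.Om z i n)) =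
      (A : ℂ) * ∑ r ∈ range S.k, av S.U S.L fun n => F n * starRingEnd ℂ (O r n) := by
    have h5 : ∀ x ∈ range S.L, F (S.U + x) * starRingEnd ℂ (S.Om z i (S.U + x)) =
        (A : ℂ) * ∑ r ∈ range S.k, F (S.U + x) * starRingEnd ℂ (O r (S.U + x)) := by
      intro x hx
      rw [mem_range] at hx
      rw [f3 i x hi hiK hx, map_mul, Complex.conj_ofReal, map_sum, ← mul_sum]
      simp only [hO]
      ring
    unfold av
    rw [sum_congr rfl h5, ← mul_sum, mul_div_assoc, sum_comm, sum_div]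
  rw [h4, norm_mul, Complex.norm_real, Real.norm_eq_abs, abs_of_nonneg (by linarith)]
  have h7 : ‖∑ r ∈ range S.k, av S.U S.L fun n => F n * starRingEnd ℂ (O r n)‖ ≤
      S.k * (C * R * δ) := by
    calc ‖∑ r ∈ range S.k, av S.U S.L fun n => F n * starRingEnd ℂ (O r n)‖
        ≤ ∑ r ∈ range S.k, C * R * δ :=
          (norm_sum_le _ _).trans (sum_le_sum fun r hr => h1 r (mem_range.1 hr))
      _ = S.k * (C * R * δ) := by rw [sum_const, card_range, nsmul_eq_mul]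
  have hk : (1 : ℝ) ≤ S.k := by exact_mod_cast hS.k1
  have h8 : (S.k : ℝ) ≤ (S.k : ℝ) ^ 4 := le_self_pow₀ hk (by norm_num)
  have h9 : A ≤ A ^ 2 := le_self_pow₀ hA (by norm_num)
  have h10 : 0 ≤ C * R * δ := by positivity
  calc A * ‖∑ r ∈ range S.k, av S.U S.L fun n => F n * starRingEnd ℂ (O r n)‖
      ≤ A ^ 2 * ((S.k : ℝ) ^ 4 * (C * R * δ)) := by
        refine mul_le_mul h9 (h7.trans (mul_le_mul_of_nonneg_right h8 h10)) (norm_nonneg _)
          (sq_nonneg A)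
    _ = C * ((S.k : ℝ) ^ 4 * A ^ 2) * R * δ := by ring

end Pool.Agent.H21.BT
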