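import Pool.Agent.H21.BT.Defs

/-!
# A Bessel inequality over many levels for tuples of exponentials: statements
-/

set_option autoImplicit false

open Finset Pool.Agent.H6.N4D Pool.Agent.H21.BS

namespace Pool.Agent.H21.BT

/-! ## One window -/

/-- KRN. Two primes at the same point against an exponential which is not close to `b/q + c/p`
with `p` not dividing `c`. -/
def T_KRN : Prop := ∀ (N a q p : ℕ) (γ : ℝ), q.Prime → p.Prime → q ^ 200 ≤ N → p ^ 200 ≤ N →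
  (∀ b c : ℤ, ¬ ((p : ℤ) ∣ c) →
    (N : ℝ) ^ (-(1 / 2) : ℝ) < nd (γ - (b : ℝ) / q - (c : ℝ) / p)) →
  ‖∑ x ∈ range N, (if q ∣ a + x then (q : ℂ) else 0) * DD p (a + x) *
    ee (γ * ((a + x : ℕ) : ℝ))‖ ≤ (N : ℝ) ^ (3 / 5 : ℝ) ∧
  ‖∑ x ∈ range N, DD p (a + x) * ee (γ * ((a + x : ℕ) : ℝ))‖ ≤ (N : ℝ) ^ (3 / 5 : ℝ)

open Classical in
/-- EXC. The number of the exceptional primes. -/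
def T_EXC : Prop := ∀ (W A : ℝ) (P : ℕ) (V : TC), V.Ok W A P → ∀ q ∈ V.Q,
  ((V.Q.filter fun p => p ≠ q ∧ V.Ex q p).card : ℝ) ≤ (V.k : ℝ) ^ 2

/-- TRV. Trivial bounds. -/
def T_TRV : Prop := ∀ (W A : ℝ) (P : ℕ) (V : TC), V.Ok W A P →
  (∀ q ∈ V.Q, ∀ n, ‖V.F q n‖ ≤ V.k * A) ∧
  (∀ q ∈ V.Q, ∑ x ∈ range V.N, ‖V.u q (V.a + x)‖ ^ 2 ≤ 3 * q * V.N) ∧
  ∀ q ∈ V.Q, ∀ p ∈ V.Q, q ≠ p →
    ∑ x ∈ range V.N, ‖V.u q (V.a + x)‖ * ‖V.u p (V.a + x)‖ ≤ 8 * (V.k * A) ^ 2 * V.N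

/-- PRG. A pair of primes which is not exceptional. -/
def T_PRG : Prop := ∀ (W A : ℝ) (P : ℕ) (V : TC), V.Ok W A P → ∀ q ∈ V.Q, ∀ p ∈ V.Q, q ≠ p →
  ¬ V.Ex q p → ¬ V.Ex p q →
  ∑ x ∈ range V.N, ‖V.u q (V.a + x)‖ * ‖V.u p (V.a + x)‖ ≤
    6 * V.N + 3 * (V.k * A) ^ 2 * (V.N : ℝ) ^ (3 / 5 : ℝ)

/-- DIT. The mean square of the dual function. -/
def T_DIT : Prop := ∀ W : ℝ, 0 ≤ W → ∃ C : ℝ, 0 ≤ C ∧ ∀ (A : ℝ) (P : ℕ) (V : TC) (z : ℕ → ℂ),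
  V.Ok W A P → 1 ≤ V.k → (∀ q, ‖z q‖ ≤ 3) →
  ∑ x ∈ range V.N, ‖V.om z (V.a + x)‖ ^ 2 ≤ V.N * ((3 + 6 * W) *
    ∑ q ∈ V.Q, 1 / (q : ℝ) * ‖z q‖ ^ 2 +
      C * ((V.k : ℝ) ^ 4 * A ^ 2) * (1 / P + (V.N : ℝ) ^ (-(2 / 5) : ℝ)))

/-! ## Systems -/

/-- LVT. Bookkeeping of the windows. -/
def T_LVT : Prop := ∀ (S : TS) (W A : ℝ), S.Ok W A →
  (∀ i ≤ S.K, 0 < S.N i ∧ 1 ≤ S.s 0 ∧ S.s 0 ≤ S.s i ∧ S.cnt i * S.N i = S.L ∧ 0 < S.L ∧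
    (∀ h : ℕ → ℂ, ∑ x ∈ range S.L, h (S.U + x) =
      ∑ j ∈ range (S.cnt i), ∑ x ∈ range (S.N i), h (S.U + j * S.N i + x)) ∧
    ∀ h : ℕ → ℝ, ∑ x ∈ range S.L, h (S.U + x) =
      ∑ j ∈ range (S.cnt i), ∑ x ∈ range (S.N i), h (S.U + j * S.N i + x)) ∧
  (∀ i, 1 ≤ i → i ≤ S.K → S.s 0 ≤ S.P i) ∧
  ∀ z i j x, i ≤ S.K → j < S.cnt i → x < S.N i →
    S.Om z i (S.U + j * S.N i + x) = (S.V i j).om (z i j) (S.U + j * S.N i + x)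

open Classical in
/-- the coefficients of the system of the frequencies number `ρ i` -/
noncomputable def TS.fc (S : TS) (A : ℝ) (z : ℕ → ℕ → ℕ → ℂ) (ρ : ℕ → ℕ) (i j q : ℕ) : ℂ :=
  if 1 ≤ i ∧ i ≤ S.K ∧ j < S.cnt i ∧ q ∈ S.Q i then z i j q * S.b i j (ρ i) q / A else 0

/-- OMF. The dual function as a sum of the dual functions of the frequencies. -/
def T_OMF : Prop := ∀ (S : TS) (W A : ℝ) (z : ℕ → ℕ → ℕ → ℂ), S.Ok W A →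
  (∀ i j q, ‖z i j q‖ ≤ 3) →
  (∀ ρ : ℕ → ℕ, (∀ i, ρ i < S.k) → ∀ i j q, ‖S.fc A z ρ i j q‖ ≤ 3) ∧
  (∀ (ρ : ℕ → ℕ) (i n : ℕ),
    (S.fam ρ).Om (S.fc A z ρ) i n = (S.fam fun _ => ρ i).Om (S.fc A z fun _ => ρ i) i n) ∧
  ∀ i x, 1 ≤ i → i ≤ S.K → x < S.L → S.Om z i (S.U + x) =
    A * ∑ r ∈ range S.k, (S.fam fun _ => r).Om (S.fc A z fun _ => r) i (S.U + x)

/-- OT1. The norm of the dual function of one level. -/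
def T_OT1 : Prop := ∀ W : ℝ, 0 ≤ W → ∃ C : ℝ, 0 ≤ C ∧ ∀ (S : TS) (A : ℝ) (z : ℕ → ℕ → ℕ → ℂ),
  S.Ok W A → (∀ i j q, ‖z i j q‖ ≤ 3) → ∀ i, 1 ≤ i → i ≤ S.K →
  avr S.U S.L (fun n => ‖S.Om z i n‖ ^ 2) ≤
    (3 + 6 * W) * ((S.N i : ℝ) / S.L * ∑ j ∈ range (S.cnt i), ∑ q ∈ S.Q i,
      1 / (q : ℝ) * ‖z i j q‖ ^ 2) +
    C * ((S.k : ℝ) ^ 4 * A ^ 2) * (S.s 0 : ℝ) ^ (-(1 / 5) : ℝ)

/-- OT2. The inner product of two levels. -/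
def T_OT2 : Prop := ∀ W : ℝ, 0 ≤ W → ∃ C : ℝ, 0 ≤ C ∧ ∀ (S : TS) (A : ℝ) (z : ℕ → ℕ → ℕ → ℂ),
  S.Ok W A → (∀ i j q, ‖z i j q‖ ≤ 3) → ∀ i j, 1 ≤ i → i < j → j ≤ S.K →
  ‖av S.U S.L fun n => S.Om z i n * starRingEnd ℂ (S.Om z j n)‖ ≤
    C * ((S.k : ℝ) ^ 4 * A ^ 2) * (S.s 0 : ℝ) ^ (-(1 / 5) : ℝ)

/-- OT3. The inner product with a sum of exponentials on the windows of level 0. -/
def T_OT3 : Prop := ∀ W : ℝ, 0 ≤ W → ∃ C : ℝ, 0 ≤ C ∧ ∀ (S : TS) (A : ℝ)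
  (z : ℕ → ℕ → ℕ → ℂ) (R : ℕ) (F : ℕ → ℂ), S.Ok W A → (∀ i j q, ‖z i j q‖ ≤ 3) →
  S.Exps R F → ∀ i, 1 ≤ i → i ≤ S.K →
  ‖av S.U S.L fun n => F n * starRingEnd ℂ (S.Om z i n)‖ ≤
    C * ((S.k : ℝ) ^ 4 * A ^ 2) * R * (S.s 0 : ℝ) ^ (-(1 / 5) : ℝ)

/-- OT4. Duality. -/
def T_OT4 : Prop := ∀ (W A : ℝ) (S : TS) (f : ℕ → ℂ), S.Ok W A → (∀ n, ‖f n‖ ≤ 1) →
  (∀ i j q, ‖S.cf f i j q‖ ≤ 3) ∧ ∀ i, 1 ≤ i → i ≤ S.K →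
    (S.N i : ℝ) / S.L * (∑ j ∈ range (S.cnt i), ∑ q ∈ S.Q i, 1 / (q : ℝ) * ‖S.cf f i j q‖ ^ 2) =
      S.e f i ∧
    av S.U S.L (fun n => f n * starRingEnd ℂ (S.Om (S.cf f) i n)) = ((S.e f i : ℝ) : ℂ)

/-- BT. Bessel's inequality over all levels for tuples of exponentials; the constant in front of
the distance depends only on `W`. -/
def T_BT : Prop := ∀ W : ℝ, 0 ≤ W → ∃ C : ℝ, 0 ≤ C ∧ ∀ (S : TS) (A : ℝ) (R : ℕ) (f F : ℕ → ℂ),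
  S.Ok W A → (∀ n, ‖f n‖ ≤ 1) → S.Exps R F →
  S.E f ≤ (3 + 6 * W) * avr S.U S.L (fun n => ‖f n - F n‖ ^ 2) +
    C * ((S.k : ℝ) ^ 4 * A ^ 2) * ((S.K : ℝ) ^ 2 + S.K * R) * (S.s 0 : ℝ) ^ (-(1 / 5) : ℝ)

end Pool.Agent.H21.BT
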