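import Pool.Agent.H21.BS.All
import Pool.Agent.H21.BT.Targets
import Pool.Agent.H1.BT.BT
import Pool.Agent.H1.BT.DIT
import Pool.Agent.H1.BT.OT2
import Pool.Agent.H88.BT.EXC
import Pool.Agent.H88.BT.KRN
import Pool.Agent.H75.BT.LVT
import Pool.Agent.H11.BT.OMF
import Pool.Agent.H25.BT.OT1
import Pool.Agent.H21.BT.OT3
import Pool.Agent.H38.BT.OT4
import Pool.Agent.H5.BT.TRV
import Pool.Agent.H90.BT.PRG

/-!
# A Bessel inequality over many levels for tuples of exponentials: assembly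
-/

set_option autoImplicit false

namespace Pool.Agent.H21.BT

open Pool.Agent.H21.BS

theorem krn : T_KRN := Pool.Agent.H88.BT.pf_KRN dqf esm
theorem exc : T_EXC := Pool.Agent.H88.BT.pf_EXC
theorem trv : T_TRV := Pool.Agent.H5.BT.pf_TRV pr2
theorem prg : T_PRG := Pool.Agent.H90.BT.pf_PRG krn
theorem dit : T_DIT := Pool.Agent.H1.BT.pf_DIT exc trv prg
theorem lvt : T_LVT := Pool.Agent.H75.BT.pf_LVT lvl
theorem omf : T_OMF := Pool.Agent.H11.BT.pf_OMF lvt
theorem ot1 : T_OT1 := Pool.Agent.H25.BT.pf_OT1 lvt dit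
theorem ot2 : T_OT2 := Pool.Agent.H1.BT.pf_OT2 lvt omf om2
theorem ot3 : T_OT3 := pf_OT3 lvt omf om3
theorem ot4 : T_OT4 := Pool.Agent.H38.BT.pf_OT4 lvt cnt

/-- Bessel's inequality over all levels for tuples of exponentials, no hypotheses -/
theorem aBT : T_BT := Pool.Agent.H1.BT.pf_BT lvt ot1 ot2 ot3 ot4

end Pool.Agent.H21.BT
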