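import Pool.Agent.H21.BS.TB

/-!
# A Bessel inequality over many levels for tuples of exponentials: definitions

The test function of the prime `q` is `DD q n * F_q(n)`, where `F_q` is a sum of `k` exponentials
with coefficients of norm at most `A`, of mean square at most one on the window and at most two on
the multiples of `q`.
-/

set_option autoImplicit false

open Finset Pool.Agent.H6.N4D Pool.Agent.H21.BS

namespace Pool.Agent.H21.BT

/-- a window with primes, and for every prime a sum of `k` exponentials: `α r q` is the frequency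
number `r` for the prime `q`, `b r q` its coefficient -/
structure TC where
  a : ℕ
  N : ℕ
  Q : Finset ℕ
  k : ℕ
  α : ℕ → ℕ → ℝ
  b : ℕ → ℕ → ℂ

namespace TC

/-- the sum of exponentials of the prime `q` -/
noncomputable def F (V : TC) (q n : ℕ) : ℂ := ∑ r ∈ range V.k, V.b r q * ee (V.α r q * n)

/-- the test function of the prime `q` -/
noncomputable def u (V : TC) (q n : ℕ) : ℂ := DD q n * V.F q n

/-- the dual function with the coefficients `z` -/
noncomputable def om (V : TC) (z : ℕ → ℂ) (n : ℕ) : ℂ := ∑ q ∈ V.Q, 1 / (q : ℂ) * z q * V.u q n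

/-- the conditions without frequencies -/
structure Ok (W A : ℝ) (P : ℕ) (V : TC) : Prop where
  pr : ∀ q ∈ V.Q, q.Prime
  lo : ∀ q ∈ V.Q, P ≤ q
  up : ∀ q ∈ V.Q, q ^ 200 ≤ V.N
  wt : ∑ q ∈ V.Q, 1 / (q : ℝ) ≤ W
  P1 : 1 ≤ P
  N1 : 1 ≤ V.N
  A1 : 1 ≤ A
  bA : ∀ r < V.k, ∀ q ∈ V.Q, ‖V.b r q‖ ≤ A
  n1 : ∀ q ∈ V.Q, ∑ x ∈ range V.N, ‖V.F q (V.a + x)‖ ^ 2 ≤ V.N
  nq : ∀ q ∈ V.Q, ∑ x ∈ range V.N,
    (if q ∣ V.a + x then (q : ℝ) else 0) * ‖V.F q (V.a + x)‖ ^ 2 ≤ 2 * V.N

/-- the prime `p` is exceptional for `q` -/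
def Ex (V : TC) (q p : ℕ) : Prop := ∃ r < V.k, ∃ r' < V.k, ∃ b c : ℤ, ¬ ((p : ℤ) ∣ c) ∧
  nd (V.α r q - V.α r' q - (b : ℝ) / q - (c : ℝ) / p) ≤ (V.N : ℝ) ^ (-(1 / 2) : ℝ)

end TC

/-- a system of nested windows with sums of `k` exponentials: `α i j r q`, `b i j r q` for the
window number `j` of level `i` -/
structure TS where
  K : ℕ
  T : ℕ
  U : ℕ
  s : ℕ → ℕ
  Q : ℕ → Finset ℕ
  κ : ℕ → ℝ
  P : ℕ → ℕ
  k : ℕ
  α : ℕ → ℕ → ℕ → ℕ → ℝ
  b : ℕ → ℕ → ℕ → ℕ → ℂ

namespace TS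

variable (S : TS)

/-- the system of Bessel's inequality with the frequency number `r i` at the level `i` -/
def fam (r : ℕ → ℕ) : Sys :=
  ⟨S.K, S.T, S.U, S.s, S.Q, S.κ, S.P, fun i j q => S.α i j (r i) q, fun _ _ _ _ => 1⟩

/-- the length of the windows of level `i` -/
def N (i : ℕ) : ℕ := S.s i ^ 2

/-- the length of the interval -/
def L : ℕ := S.T * S.s S.K ^ 2

/-- the number of the windows of level `i` -/
def cnt (i : ℕ) : ℕ := S.L / S.N i

/-- the window number `j` of level `i` -/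
def V (i j : ℕ) : TC := ⟨S.U + j * S.N i, S.N i, S.Q i, S.k, S.α i j, S.b i j⟩

/-- the conditions on a system: the windows are fine and every choice of the numbers of the
frequencies gives a system of Bessel's inequality -/
structure Ok (W A : ℝ) : Prop where
  k1 : 1 ≤ S.k
  fm : ∀ r : ℕ → ℕ, (∀ i, r i < S.k) → (S.fam r).Ok W
  ok : ∀ i, 1 ≤ i → i ≤ S.K → ∀ j < S.cnt i, (S.V i j).Ok W A (S.P i)

/-- the correlation of `f` with the test function of the prime `q` on the window `j` of level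
`i` -/
noncomputable def Z (f : ℕ → ℂ) (i j q : ℕ) : ℝ :=
  ‖av (S.U + j * S.N i) (S.N i) fun n => f n * starRingEnd ℂ ((S.V i j).u q n)‖

/-- the energy of level `i` -/
noncomputable def e (f : ℕ → ℂ) (i : ℕ) : ℝ :=
  (S.N i : ℝ) / S.L * ∑ j ∈ range (S.cnt i), ∑ q ∈ S.Q i, 1 / (q : ℝ) * S.Z f i j q ^ 2

/-- the total energy of the correlations -/
noncomputable def E (f : ℕ → ℂ) : ℝ := ∑ i ∈ Icc 1 S.K, S.e f i

/-- `F` is a sum of `R` exponentials with coefficients of norm at most one on every window of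
level 0 -/
def Exps (R : ℕ) (F : ℕ → ℂ) : Prop := (S.fam fun _ => 0).Exps R F

/-- the dual function of level `i` with the coefficients `z i j q` -/
noncomputable def Om (z : ℕ → ℕ → ℕ → ℂ) (i n : ℕ) : ℂ :=
  (S.V i ((n - S.U) / S.N i)).om (z i ((n - S.U) / S.N i)) n

/-- the coefficients of a function -/
noncomputable def cf (f : ℕ → ℂ) (i j q : ℕ) : ℂ :=
  if 1 ≤ i ∧ i ≤ S.K ∧ j < S.cnt i ∧ q ∈ S.Q i then
    av (S.U + j * S.N i) (S.N i) fun n => f n * starRingEnd ℂ ((S.V i j).u q n) else 0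

end TS

end Pool.Agent.H21.BT
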